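import Mathlib

/-!
Solutions of `x ^ x * y ^ y = z ^ z` with `x * y ∣ z ^ 2`.
-/

namespace Pool.Agent.W_MP_4d3d39_h25

/-- Basic inequalities. -/
theorem basic {x y z : ℕ} (hx : 1 < x) (hy : 1 < y) (h : x ^ x * y ^ y = z ^ z) :
    x < z ∧ y < z ∧ z < x + y := by
  have key : ∀ a b : ℕ, 1 < a → 1 < b → a ^ a * b ^ b = z ^ z → b < z := by
    intro a b ha hb hab
    by_contra hc
    push Not at hc
    have h1 : z ^ z ≤ b ^ b := by
      rcases Nat.eq_zero_or_pos z with hz | hz
      · subst hz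
        simp only [pow_zero]
        exact Nat.one_le_pow _ _ (by omega)
      · calc z ^ z ≤ b ^ z := Nat.pow_le_pow_left hc z
          _ ≤ b ^ b := Nat.pow_le_pow_right (by omega) hc
    have h2 : 1 < a ^ a := Nat.one_lt_pow (by omega) ha
    have h3 : 0 < b ^ b := pow_pos (by omega) b
    nlinarith
  have hyz := key x y hx hy h
  have hxz := key y x hy hx (by rw [mul_comm]; exact h)
  refine ⟨hxz, hyz, ?_⟩
  by_contra hc
  push Not at hc
  have h1 : z ^ (x + y) ≤ z ^ z := Nat.pow_le_pow_right (by omega) hc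
  rw [pow_add, ← h] at h1
  have h2 : x ^ x < z ^ x := Nat.pow_lt_pow_left hxz (by omega)
  have h3 : y ^ y < z ^ y := Nat.pow_lt_pow_left hyz (by omega)
  have h4 : x ^ x * y ^ y < z ^ x * z ^ y := Nat.mul_lt_mul'' h2 h3
  omega

/-- The valuation identity. -/
theorem val_eq {x y z : ℕ} (hx : 1 < x) (hy : 1 < y) (h : x ^ x * y ^ y = z ^ z)
    (l : ℕ) : x * x.factorization l + y * y.factorization l = z * z.factorization l := by
  have h1 : (x ^ x * y ^ y).factorization l = (z ^ z).factorization l := by rw [h]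
  rw [Nat.factorization_mul (pow_ne_zero _ (by omega)) (pow_ne_zero _ (by omega))] at h1
  simpa using h1

theorem alg1 (a b c p d k : ℕ) (h : a * b = c * k) : a * p * (b * d) = c * (k * p * d) := by
  calc a * p * (b * d) = (a * b) * (p * d) := by ring
    _ = c * (k * p * d) := by rw [h]; ring

theorem alg2 (k p q a b : ℕ) (hpos : 0 < p * a) (h : k * p * a = p * q * (a * b)) :
    k = b * q := by
  apply Nat.eq_of_mul_eq_mul_left hpos
  calc p * a * k = k * p * a := by ring
    _ = p * a * (b * q) := by rw [h]; ring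

/-- The case `4 x y = z ^ 2`. -/
theorem case_four {w P f κ Y : ℕ} (hY : Y = 2 ^ w) (hκ : 0 < κ) (hP : Odd P)
    (hPf : P + f = 2 * Y)
    (h : (κ * P ^ 2) ^ (κ * P ^ 2) * (4 * κ * Y ^ 2) ^ (4 * κ * Y ^ 2) =
      (4 * κ * P * Y) ^ (4 * κ * P * Y)) :
    P = 2 ^ (w + 1) - 1 ∧ κ = 2 ^ (2 ^ (w + 2) * (2 ^ (w + 1) - (w + 1) - 1)) * P ^ (2 * P) := by
  have hY0 : 0 < Y := by rw [hY]; positivity
  have hP0 : 0 < P := hP.pos
  have hP2 : P.factorization 2 = 0 :=
    Nat.factorization_eq_zero_of_not_dvd (by rw [← even_iff_two_dvd, Nat.not_even_iff_odd]; exact hP)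
  have hYf : Y.factorization 2 = w := by
    rw [hY, Nat.factorization_pow]
    simp [Nat.Prime.factorization_self Nat.prime_two]
  -- take the κ-th root
  have h1 : (κ * P ^ 2) ^ (P ^ 2) * (4 * κ * Y ^ 2) ^ (4 * Y ^ 2) =
      (4 * κ * P * Y) ^ (4 * P * Y) := by
    have h2 : ((κ * P ^ 2) ^ (P ^ 2) * (4 * κ * Y ^ 2) ^ (4 * Y ^ 2)) ^ κ =
        ((4 * κ * P * Y) ^ (4 * P * Y)) ^ κ := by
      rw [mul_pow, ← pow_mul, ← pow_mul, ← pow_mul]
      rw [show P ^ 2 * κ = κ * P ^ 2 by ring, show 4 * Y ^ 2 * κ = 4 * κ * Y ^ 2 by ring,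
        show 4 * P * Y * κ = 4 * κ * P * Y by ring]
      exact h
    exact Nat.pow_left_injective hκ.ne' h2
  -- 2-adic valuation
  have hval : P ^ 2 * κ.factorization 2 + 4 * Y ^ 2 * (2 + κ.factorization 2 + 2 * w) =
      4 * P * Y * (2 + κ.factorization 2 + w) := by
    have h4 : (4 : ℕ).factorization 2 = 2 := by
      rw [show (4 : ℕ) = 2 ^ 2 by norm_num, Nat.factorization_pow]
      simp [Nat.Prime.factorization_self Nat.prime_two]
    have h3 : ((κ * P ^ 2) ^ (P ^ 2) * (4 * κ * Y ^ 2) ^ (4 * Y ^ 2)).factorization 2 =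
      ((4 * κ * P * Y) ^ (4 * P * Y)).factorization 2 := by rw [h1]
    rw [Nat.factorization_mul (by positivity) (by positivity), Nat.factorization_pow,
      Nat.factorization_pow, Nat.factorization_pow, Nat.factorization_mul hκ.ne' (by positivity),
      Nat.factorization_mul (a := 4 * κ) (by positivity) (by positivity),
      Nat.factorization_mul (a := 4) (by norm_num) hκ.ne',
      Nat.factorization_mul (a := 4 * κ * P) (by positivity) hY0.ne',
      Nat.factorization_mul (a := 4 * κ) (by positivity) hP0.ne',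
      Nat.factorization_mul (a := 4) (by norm_num) hκ.ne',
      Nat.factorization_pow, Nat.factorization_pow] at h3
    simp only [Finsupp.add_apply, Finsupp.smul_apply, smul_eq_mul, hP2, hYf, h4] at h3
    simp only [mul_zero, add_zero] at h3
    exact h3
  -- f divides 8 Y ^ 2
  have hfd : f ∣ 8 * Y ^ 2 := by
    have h5 : (f : ℤ) ∣ 8 * (Y : ℤ) ^ 2 := by
      have hPz : (P : ℤ) = 2 * Y - f := by
        have : ((P + f : ℕ) : ℤ) = ((2 * Y : ℕ) : ℤ) := by rw [hPf]
        push_cast at this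
        linarith
      have h6 : ((P ^ 2 * κ.factorization 2 + 4 * Y ^ 2 * (2 + κ.factorization 2 + 2 * w) : ℕ) : ℤ) =
          ((4 * P * Y * (2 + κ.factorization 2 + w) : ℕ) : ℤ) := by rw [hval]
      push_cast at h6
      rw [hPz] at h6
      refine ⟨(κ.factorization 2 : ℤ) * f + 4 * (w + 2) * Y, ?_⟩
      linear_combination (-1 : ℤ) * h6
    exact_mod_cast h5
  have hfodd : Odd f := by
    rw [Nat.odd_iff] at hP ⊢
    omega
  have hf1 : f = 1 := by
    have h8 : 8 * Y ^ 2 = 2 ^ (2 * w + 3) := by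
      rw [hY]; ring
    rw [h8] at hfd
    obtain ⟨i, -, hi⟩ := (Nat.dvd_prime_pow Nat.prime_two).mp hfd
    rcases Nat.eq_zero_or_pos i with h0 | h0
    · rw [hi, h0, pow_zero]
    · exfalso
      have : Even f := by
        rw [hi]
        exact (Nat.even_pow' h0.ne').mpr even_two
      exact (Nat.not_even_iff_odd.mpr hfodd) this
  subst hf1
  have hPe : P = 2 ^ (w + 1) - 1 := by
    have : 2 ^ (w + 1) = 2 * Y := by rw [hY]; ring
    omega
  refine ⟨hPe, ?_⟩
  -- κ from the equation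
  have hw2 : w + 2 ≤ 2 * Y := by
    have := Nat.lt_two_pow_self (n := w + 1)
    rw [pow_succ] at this
    omega
  obtain ⟨j, hj⟩ := Nat.exists_eq_add_of_le hw2
  -- 2 Y = w + 2 + j
  have hA : 2 ^ (w + 2) * (2 ^ (w + 1) - (w + 1) - 1) = 4 * Y * j := by
    have e1 : 2 ^ (w + 2) = 4 * Y := by rw [hY]; ring
    have e2 : 2 ^ (w + 1) = 2 * Y := by rw [hY]; ring
    rw [e1, e2]
    congr 1
    omega
  rw [hA]
  have hPY : P = 2 * Y - 1 := by omega
  -- collect powers
  have e4 : (4 : ℕ) * Y ^ 2 = 2 ^ (2 * w + 2) := by rw [hY]; ring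
  have hexp : P ^ 2 + 4 * Y ^ 2 = 4 * P * Y + 1 := by
    calc P ^ 2 + 4 * Y ^ 2 = P ^ 2 + (2 * Y) ^ 2 := by ring
      _ = 2 * P * (P + 1) + 1 := by rw [← hPf]; ring
      _ = 2 * P * (2 * Y) + 1 := by rw [← hPf]
      _ = 4 * P * Y + 1 := by ring
  have h13 : κ * P ^ (2 * P ^ 2) * 2 ^ ((2 * w + 2) * (4 * Y ^ 2)) =
      P ^ (4 * P * Y) * 2 ^ ((w + 2) * (4 * P * Y)) := by
    have h11 : (κ * P ^ 2) ^ (P ^ 2) * (4 * κ * Y ^ 2) ^ (4 * Y ^ 2) =
        κ ^ (4 * P * Y) * (κ * P ^ (2 * P ^ 2) * 2 ^ ((2 * w + 2) * (4 * Y ^ 2))) := by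
      have e7 : κ ^ (P ^ 2) * κ ^ (4 * Y ^ 2) = κ ^ (4 * P * Y) * κ := by
        rw [← pow_add, hexp, pow_succ]
      rw [show 4 * κ * Y ^ 2 = κ * 2 ^ (2 * w + 2) by rw [← e4]; ring]
      rw [mul_pow, mul_pow, ← pow_mul, ← pow_mul]
      exact alg1 _ _ _ _ _ _ e7
    have h12 : (4 * κ * P * Y) ^ (4 * P * Y) =
        κ ^ (4 * P * Y) * (P ^ (4 * P * Y) * 2 ^ ((w + 2) * (4 * P * Y))) := by
      rw [show 4 * κ * P * Y = κ * (P * 2 ^ (w + 2)) by rw [hY]; ring]
      rw [mul_pow, mul_pow, ← pow_mul]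
    exact Nat.eq_of_mul_eq_mul_left (by positivity) (h11.symm.trans (h1.trans h12))
  have e5 : 4 * P * Y = 2 * P ^ 2 + 2 * P := by
    calc 4 * P * Y = 2 * P * (2 * Y) := by ring
      _ = 2 * P ^ 2 + 2 * P := by rw [← hPf]; ring
  have e6 : (w + 2) * (4 * P * Y) = (2 * w + 2) * (4 * Y ^ 2) + 4 * Y * j := by
    have hz1 : (P : ℤ) = 2 * Y - 1 := by
      have : ((2 * Y : ℕ) : ℤ) = ((P + 1 : ℕ) : ℤ) := by rw [hPf]
      push_cast at this
      linarith
    have hz2 : (2 * Y : ℤ) = w + 2 + j := by exact_mod_cast hj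
    have : (((w + 2) * (4 * P * Y) : ℕ) : ℤ) = (((2 * w + 2) * (4 * Y ^ 2) + 4 * Y * j : ℕ) : ℤ) := by
      push_cast
      rw [hz1]
      have hj' : (j : ℤ) = 2 * Y - w - 2 := by linarith
      rw [hj']
      ring
    exact_mod_cast this
  rw [e6, e5, pow_add P, pow_add 2] at h13
  have hpos : 0 < P ^ (2 * P ^ 2) * 2 ^ ((2 * w + 2) * (4 * Y ^ 2)) := by positivity
  exact alg2 _ _ _ _ _ hpos h13

/-- Valuations at the primes of `Y`. -/
theorem val_Y {x y z m h Y P e l : ℕ} (hx : 1 < x) (hy : 1 < y)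
    (heq : x ^ x * y ^ y = z ^ z) (hl : l.Prime) (hlY : l ∣ Y) (hcop : Nat.Coprime Y P)
    (hm : 0 < m) (hh : 0 < h) (hY : 0 < Y) (hPe : P = Y + e)
    (hxm : x * m = h * P ^ 2) (hyY : y = h * Y ^ 2) (hz : z = h * P * Y) (hzx : z < x + y) :
    Y.factorization l * (Y - e) ≤ m.factorization l * e := by
  have hP : 0 < P := by omega
  have hlP : P.factorization l = 0 := by
    apply Nat.factorization_eq_zero_of_not_dvd
    intro hd
    exact hl.one_lt.ne' (Nat.dvd_one.mp (hcop ▸ Nat.dvd_gcd hlY hd))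
  have h1 := val_eq hx hy heq l
  have h2 : x.factorization l + m.factorization l = h.factorization l := by
    have h3 : (x * m).factorization l = (h * P ^ 2).factorization l := by rw [hxm]
    rw [Nat.factorization_mul (by omega) hm.ne', Nat.factorization_mul hh.ne' (by positivity),
      Nat.factorization_pow] at h3
    simpa [hlP] using h3
  have h3 : y.factorization l = h.factorization l + 2 * Y.factorization l := by
    rw [hyY, Nat.factorization_mul hh.ne' (by positivity), Nat.factorization_pow]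
    simp
  have h4 : z.factorization l = h.factorization l + Y.factorization l := by
    rw [hz, Nat.factorization_mul (by positivity) hY.ne', Nat.factorization_mul hh.ne' hP.ne']
    simp [hlP]
  rw [h3, h4] at h1
  rcases Nat.le_total Y e with hYe | hYe
  · rw [Nat.sub_eq_zero_of_le hYe]
    simp
  obtain ⟨d, rfl⟩ := Nat.exists_eq_add_of_le hYe
  rw [Nat.add_sub_cancel_left]
  -- y = h Y^2, z = h P Y
  set a := x.factorization l
  set b := m.factorization l
  set c := (e + d).factorization l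
  set H := h.factorization l
  -- (H + c) z = x a + y (H + 2 c)
  have hposY : 0 < h * (e + d) := by positivity
  have h5 : (e + d) * h * (c * d) ≤ (e + d) * h * (b * e) := by
    have hzy : z = y + h * (e + d) * e := by
      rw [hz, hyY, hPe]; ring
    have hyd : y = h * (e + d) * e + h * (e + d) * d := by
      rw [hyY]; ring
    have hxe : h * (e + d) * e ≤ x := by omega
    have h6 : h * (e + d) * e * a ≤ x * a := Nat.mul_le_mul_right a hxe
    rw [hzy] at h1
    have h7 : H = a + b := h2.symm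
    rw [h7] at h1
    nlinarith
  exact Nat.le_of_mul_le_mul_left h5 (by positivity)

/-- Valuations at the primes of `P`. -/
theorem val_P {x y z m h Y P l : ℕ} (hx : 1 < x) (hy : 1 < y)
    (heq : x ^ x * y ^ y = z ^ z) (hl : l.Prime) (hlP : l ∣ P) (hcop : Nat.Coprime Y P)
    (hm : 0 < m) (hh : 0 < h) (hY : 0 < Y) (hP : 0 < P)
    (hxm : x * m = h * P ^ 2) (hyY : y = h * Y ^ 2) (hz : z = h * P * Y) (hzx : z < x + y)
    (hz2 : z < 2 * x) : l ∣ m := by
  have hlY : Y.factorization l = 0 := by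
    apply Nat.factorization_eq_zero_of_not_dvd
    intro hd
    exact hl.one_lt.ne' (Nat.dvd_one.mp (hcop ▸ Nat.dvd_gcd hd hlP))
  have h1 := val_eq hx hy heq l
  have h2 : x.factorization l + m.factorization l = h.factorization l + 2 * P.factorization l := by
    have h3 : (x * m).factorization l = (h * P ^ 2).factorization l := by rw [hxm]
    rw [Nat.factorization_mul (by omega) hm.ne', Nat.factorization_mul hh.ne' (by positivity),
      Nat.factorization_pow] at h3
    simpa using h3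
  have h3 : y.factorization l = h.factorization l := by
    rw [hyY, Nat.factorization_mul hh.ne' (by positivity), Nat.factorization_pow]
    simp [hlY]
  have h4 : z.factorization l = h.factorization l + P.factorization l := by
    rw [hz, Nat.factorization_mul (by positivity) hY.ne', Nat.factorization_mul hh.ne' hP.ne']
    simp [hlY]
  rw [h3, h4] at h1
  by_contra hlm
  have h5 : m.factorization l = 0 := Nat.factorization_eq_zero_of_not_dvd hlm
  have h6 : 0 < P.factorization l := hl.factorization_pos_of_dvd hP.ne' hlP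
  rw [h5, add_zero] at h2
  rw [h2] at h1
  have h7 : z * h.factorization l ≤ (x + y) * h.factorization l :=
    Nat.mul_le_mul_right _ hzx.le
  have h8 : z * P.factorization l < 2 * x * P.factorization l :=
    Nat.mul_lt_mul_of_pos_right hz2 h6
  nlinarith

/-- A number all of whose prime divisors equal `q` is a power of `q`. -/
theorem pow_of_primes {Y q : ℕ} (hY : Y ≠ 0) (h : ∀ l : ℕ, l.Prime → l ∣ Y → l = q) :
    ∃ w : ℕ, Y = q ^ w :=
  ⟨_, Nat.eq_prime_pow_of_unique_prime_dvd hY (fun {d} hd hdY => h d hd hdY)⟩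

/-- The shape of a solution with `x ≤ y` and `x * y ∣ z ^ 2`. -/
theorem shape {x y z m : ℕ} (hx : 1 < x) (hy : 1 < y) (hxy : x ≤ y)
    (heq : x ^ x * y ^ y = z ^ z) (hm : z ^ 2 = x * y * m) :
    ∃ w κ P Y : ℕ, 1 ≤ w ∧ Y = 2 ^ w ∧ 0 < κ ∧ Odd P ∧ P ≤ 2 * Y ∧
      x = κ * P ^ 2 ∧ y = 4 * κ * Y ^ 2 ∧ z = 4 * κ * P * Y := by
  obtain ⟨hxz, hyz, hzxy⟩ := basic hx hy heq
  have hm0 : 0 < m := by
    rcases Nat.eq_zero_or_pos m with h0 | h0
    · subst h0
      have : 0 < z ^ 2 := pow_pos (by omega) 2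
      omega
    · exact h0
  -- write y = g * Y, z = g * P
  obtain ⟨g, Y, P, hg, hcop, hyg, hzg⟩ : ∃ g Y P : ℕ, 0 < g ∧ Nat.Coprime Y P ∧
      y = g * Y ∧ z = g * P := by
    obtain ⟨Y, P, hc, h1, h2⟩ := Nat.exists_coprime y z
    exact ⟨Nat.gcd y z, Y, P, Nat.gcd_pos_of_pos_left z (by omega), hc,
      by rw [mul_comm]; exact h1, by rw [mul_comm]; exact h2⟩
  have hY0 : 0 < Y := by
    rcases Nat.eq_zero_or_pos Y with h0 | h0
    · subst h0; omega
    · exact h0
  have hP0 : 0 < P := by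
    rcases Nat.eq_zero_or_pos P with h0 | h0
    · subst h0; omega
    · exact h0
  have h1 : g * P ^ 2 = x * Y * m := by
    apply Nat.eq_of_mul_eq_mul_left hg
    calc g * (g * P ^ 2) = z ^ 2 := by rw [hzg]; ring
      _ = x * y * m := hm
      _ = g * (x * Y * m) := by rw [hyg]; ring
  have hYg : Y ∣ g := by
    have h2 : Y ∣ g * P ^ 2 := by
      rw [h1]
      exact ⟨x * m, by ring⟩
    exact (Nat.Coprime.pow_right 2 hcop).dvd_of_dvd_mul_right h2
  obtain ⟨h, rfl⟩ := hYg
  have hh : 0 < h := by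
    rcases Nat.eq_zero_or_pos h with h0 | h0
    · subst h0; simp at hg
    · exact h0
  have hxm : x * m = h * P ^ 2 := by
    apply Nat.eq_of_mul_eq_mul_left hY0
    calc Y * (x * m) = x * Y * m := by ring
      _ = Y * h * P ^ 2 := h1.symm
      _ = Y * (h * P ^ 2) := by ring
  have hyY : y = h * Y ^ 2 := by rw [hyg]; ring
  have hz : z = h * P * Y := by rw [hzg]; ring
  have hYP : Y < P := by
    rw [hyg, hzg] at hyz
    exact Nat.lt_of_mul_lt_mul_left hyz
  obtain ⟨e, he⟩ := Nat.exists_eq_add_of_lt hYP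
  obtain ⟨e, he, he1⟩ : ∃ e : ℕ, P = Y + e ∧ 1 ≤ e := ⟨e + 1, by omega, by omega⟩
  have hhY : 0 < h * Y := by positivity
  have heY : e < Y := by
    have h2 : z < 2 * y := by omega
    have h3 : h * Y * P < h * Y * (2 * Y) := by
      calc h * Y * P = z := by rw [hz]; ring
        _ < 2 * y := h2
        _ = h * Y * (2 * Y) := by rw [hyY]; ring
    have h4 := Nat.lt_of_mul_lt_mul_left h3
    omega
  -- m e Y < (Y + e)^2
  have hmain : m * e * Y < (Y + e) ^ 2 := by
    have h2 : h * Y * e < x := by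
      have : z = y + h * Y * e := by rw [hz, hyY, he]; ring
      omega
    have h3 : h * (m * e * Y) < h * (Y + e) ^ 2 := by
      calc h * (m * e * Y) = m * (h * Y * e) := by ring
        _ < m * x := Nat.mul_lt_mul_of_pos_left h2 hm0
        _ = x * m := by ring
        _ = h * (Y + e) ^ 2 := by rw [hxm, he]
    exact Nat.lt_of_mul_lt_mul_left h3
  -- valuations
  have hvY : ∀ l : ℕ, l.Prime → l ∣ Y →
      Y.factorization l * (Y - e) ≤ m.factorization l * e := by
    intro l hl hlY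
    exact val_Y hx hy heq hl hlY hcop hm0 hh hY0 he hxm hyY hz hzxy
  have hpY : ∀ l : ℕ, l.Prime → l ∣ Y → l ∣ m := by
    intro l hl hlY
    have h2 := hvY l hl hlY
    have h3 : 0 < Y.factorization l := hl.factorization_pos_of_dvd hY0.ne' hlY
    have h4 : 0 < Y - e := by omega
    have h5 : 0 < m.factorization l * e := lt_of_lt_of_le (Nat.mul_pos h3 h4) h2
    by_contra hc
    rw [Nat.factorization_eq_zero_of_not_dvd hc] at h5
    simp at h5
  have hpP : z < 2 * x → ∀ l : ℕ, l.Prime → l ∣ P → l ∣ m := by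
    intro h2 l hl hlP
    exact val_P hx hy heq hl hlP hcop hm0 hh hY0 hP0 hxm hyY hz hzxy h2
  have hPne : P ≠ 1 := by omega
  have hYne : Y ≠ 1 := by omega
  -- cases on m
  have hprime_case : m.Prime → 2 * x ≤ z := by
    intro hmp
    by_contra hc
    push Not at hc
    obtain ⟨l, hl, hlP⟩ := Nat.exists_prime_and_dvd hPne
    obtain ⟨l', hl', hlY⟩ := Nat.exists_prime_and_dvd hYne
    have e1 := (Nat.prime_dvd_prime_iff_eq hl hmp).mp (hpP hc l hl hlP)
    have e2 := (Nat.prime_dvd_prime_iff_eq hl' hmp).mp (hpY l' hl' hlY)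
    have e3 : m ∣ Nat.gcd Y P := Nat.dvd_gcd (e2 ▸ hlY) (e1 ▸ hlP)
    rw [hcop] at e3
    exact hmp.one_lt.ne' (Nat.dvd_one.mp e3)
  have hm1 : m ≠ 1 := by
    rintro rfl
    have h2 : h * Y ^ 2 < h * P ^ 2 :=
      Nat.mul_lt_mul_of_pos_left (Nat.pow_lt_pow_left hYP (by norm_num)) hh
    rw [← hxm, ← hyY] at h2
    omega
  have hhP : 0 < h * P := by positivity
  have hm2 : m ≠ 2 := by
    rintro rfl
    have h2 := hprime_case Nat.prime_two
    have h3 : h * P * P ≤ h * P * Y := by
      calc h * P * P = x * 2 := by rw [hxm]; ring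
        _ ≤ z := by omega
        _ = h * P * Y := hz
    have h4 := Nat.le_of_mul_le_mul_left h3 hhP
    omega
  have hm3 : m ≠ 3 := by
    rintro rfl
    have h2 := hprime_case Nat.prime_three
    have h3 : h * P * (2 * P) ≤ h * P * (3 * Y) := by
      calc h * P * (2 * P) = 2 * (x * 3) := by rw [hxm]; ring
        _ ≤ 3 * z := by omega
        _ = h * P * (3 * Y) := by rw [hz]; ring
    have h4 := Nat.le_of_mul_le_mul_left h3 hhP
    obtain ⟨l', hl', hlY⟩ := Nat.exists_prime_and_dvd hYne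
    have e2 := (Nat.prime_dvd_prime_iff_eq hl' Nat.prime_three).mp (hpY l' hl' hlY)
    subst e2
    have h5 := hvY 3 Nat.prime_three hlY
    have h6 : (3 : ℕ).factorization 3 = 1 := Nat.Prime.factorization_self Nat.prime_three
    have h7 : 0 < Y.factorization 3 := Nat.prime_three.factorization_pos_of_dvd hY0.ne' hlY
    rw [h6, one_mul] at h5
    have h8 : Y - e ≤ Y.factorization 3 * (Y - e) := Nat.le_mul_of_pos_left _ h7
    have h9 : Y = 2 * e := by omega
    have h10 : 2 ∣ Y := ⟨e, h9⟩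
    have h11 := hpY 2 Nat.prime_two h10
    omega
  have hm5 : m < 5 := by
    by_contra hc
    push Not at hc
    have hdvd : Y ^ (Y - e) ∣ m ^ e := by
      rw [← Nat.factorization_prime_le_iff_dvd (pow_ne_zero _ hY0.ne') (pow_ne_zero _ hm0.ne')]
      intro l hl
      rw [Nat.factorization_pow, Nat.factorization_pow]
      simp only [Finsupp.smul_apply, smul_eq_mul]
      rw [mul_comm (Y - e), mul_comm e]
      by_cases hlY : l ∣ Y
      · exact hvY l hl hlY
      · rw [Nat.factorization_eq_zero_of_not_dvd hlY]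
        simp
    have hle : Y ^ (Y - e) ≤ m ^ e := Nat.le_of_dvd (pow_pos hm0 e) hdvd
    rcases Nat.lt_or_ge e 2 with he2 | he2
    · have he3 : e = 1 := by omega
      subst he3
      rw [pow_one] at hle
      rcases Nat.lt_or_ge Y 3 with hY3 | hY3
      · have : Y = 2 := by omega
        subst this
        omega
      · have h2 : Y ^ 2 ≤ Y ^ (Y - 1) := Nat.pow_le_pow_right hY0 (by omega)
        have h3 : Y ^ 2 ≤ m := le_trans h2 hle
        nlinarith
    · rcases Nat.lt_or_ge Y (2 * e) with hYe | hYe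
      · have h2 : 5 * e * Y ≤ m * e * Y := by
          apply Nat.mul_le_mul_right
          exact Nat.mul_le_mul_right _ hc
        nlinarith
      · have h2 : Y ^ e ≤ Y ^ (Y - e) := Nat.pow_le_pow_right hY0 (by omega)
        have h3 : Y ≤ m := (Nat.pow_le_pow_iff_left (by omega : e ≠ 0)).mp (le_trans h2 hle)
        have h4 : e * Y ^ 2 < (Y + e) ^ 2 := by
          calc e * Y ^ 2 = Y * e * Y := by ring
            _ ≤ m * e * Y := Nat.mul_le_mul_right _ (Nat.mul_le_mul_right _ h3)
            _ < (Y + e) ^ 2 := hmain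
        have he3 : e = 2 := by
          by_contra hne
          have he4 : 3 ≤ e := by omega
          have h5 : 3 * Y ^ 2 ≤ e * Y ^ 2 := Nat.mul_le_mul_right _ he4
          nlinarith
        subst he3
        have hY4 : Y = 4 := by
          by_contra hne
          have h5 : 5 ≤ Y := by omega
          nlinarith
        subst hY4
        omega
  have hm4 : m = 4 := by omega
  subst hm4
  have hl2 : ∀ l : ℕ, l.Prime → l ∣ Y → l = 2 := by
    intro l hl hlY
    have h2 := hpY l hl hlY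
    have h3 : l ∣ 2 ^ 2 := by simpa using h2
    exact (Nat.prime_dvd_prime_iff_eq hl Nat.prime_two).mp (hl.dvd_of_dvd_pow h3)
  obtain ⟨w, hw⟩ := pow_of_primes hY0.ne' hl2
  have hw1 : 1 ≤ w := by
    rcases Nat.eq_zero_or_pos w with h0 | h0
    · subst h0
      rw [pow_zero] at hw
      omega
    · exact h0
  have h2Y : 2 ∣ Y := by
    rw [hw]
    exact dvd_pow_self 2 (by omega)
  have hPodd : Odd P := by
    rw [← Nat.not_even_iff_odd, even_iff_two_dvd]
    intro h2P
    have := Nat.dvd_gcd h2Y h2P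
    rw [hcop] at this
    omega
  have h4h : 4 ∣ h := by
    have h2 : 4 ∣ h * P ^ 2 := ⟨x, by rw [← hxm]; ring⟩
    have h3 : Nat.Coprime 4 (P ^ 2) := by
      have : Nat.Coprime 2 P := (Nat.coprime_two_left).mpr hPodd
      exact Nat.Coprime.pow_right 2 (by
        rw [show (4 : ℕ) = 2 ^ 2 by norm_num]
        exact Nat.Coprime.pow_left 2 this)
    exact h3.dvd_of_dvd_mul_right h2
  obtain ⟨κ, rfl⟩ := h4h
  refine ⟨w, κ, P, Y, hw1, hw, by omega, hPodd, by omega, ?_, hyY, hz⟩
  apply Nat.eq_of_mul_eq_mul_left (show 0 < 4 by norm_num)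
  calc 4 * x = x * 4 := by ring
    _ = 4 * κ * P ^ 2 := hxm
    _ = 4 * (κ * P ^ 2) := by ring

end Pool.Agent.W_MP_4d3d39_h25
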