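import Mathlib
import Pool.Agent.W_MP_4d3d39_h25.Main

/-!
Solutions of `x ^ x * y ^ y = z ^ z` with `x * y / z ^ 2 = a / m` in lowest terms.
-/

namespace Pool.Agent.W_MP_4d3d39_h25

/-- Valuation of the numerator `a`. -/
theorem val_a {x y z a m G g Y P l : ℕ} (hx : 1 < x) (hxy : x ≤ y)
    (heq : x ^ x * y ^ y = z ^ z) (hzx : z < x + y) (hz0 : 0 < z)
    (hcop : Nat.Coprime Y P) (hyg : y = g * Y) (hzg : z = g * P)
    (ham : Nat.Coprime a m) (h1 : x * y = a * G) (h2 : z ^ 2 = m * G) (hl : l.Prime) :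
    a.factorization l * x ≤ P.factorization l * (z - 2 * x) := by
  by_cases hla : l ∣ a
  swap
  · rw [Nat.factorization_eq_zero_of_not_dvd hla]
    simp
  have hx0 : 0 < x := by omega
  have hy0 : 0 < y := by omega
  have hg0 : 0 < g := by
    rcases Nat.eq_zero_or_pos g with h0 | h0
    · subst h0; omega
    · exact h0
  have hY0 : 0 < Y := by
    rcases Nat.eq_zero_or_pos Y with h0 | h0
    · subst h0; omega
    · exact h0
  have hP0 : 0 < P := by
    rcases Nat.eq_zero_or_pos P with h0 | h0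
    · subst h0; omega
    · exact h0
  have hxy0 : x * y ≠ 0 := by positivity
  have ha0 : a ≠ 0 := by
    rintro rfl
    apply hxy0
    rw [h1]; simp
  have hG0 : G ≠ 0 := by
    rintro rfl
    apply hxy0
    rw [h1]; simp
  have hm0 : m ≠ 0 := by
    rintro rfl
    have : 0 < z ^ 2 := pow_pos hz0 2
    rw [h2] at this
    simp at this
  have hlm : m.factorization l = 0 := by
    apply Nat.factorization_eq_zero_of_not_dvd
    intro hd
    exact hl.one_lt.ne' (Nat.dvd_one.mp (ham ▸ Nat.dvd_gcd hla hd))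
  have hval := val_eq hx (by omega : 1 < y) heq l
  have e1 : x.factorization l + y.factorization l = a.factorization l + G.factorization l := by
    have : (x * y).factorization l = (a * G).factorization l := by rw [h1]
    rw [Nat.factorization_mul hx0.ne' hy0.ne', Nat.factorization_mul ha0 hG0] at this
    simpa using this
  have e2 : 2 * z.factorization l = G.factorization l := by
    have : (z ^ 2).factorization l = (m * G).factorization l := by rw [h2]
    rw [Nat.factorization_pow, Nat.factorization_mul hm0 hG0] at this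
    simpa [hlm] using this
  have e3 : y.factorization l = g.factorization l + Y.factorization l := by
    rw [hyg, Nat.factorization_mul hg0.ne' hY0.ne']
    simp
  have e4 : z.factorization l = g.factorization l + P.factorization l := by
    rw [hzg, Nat.factorization_mul hg0.ne' hP0.ne']
    simp
  have hpos : 0 < a.factorization l := hl.factorization_pos_of_dvd ha0 hla
  set α := x.factorization l
  set β := y.factorization l
  set γ := z.factorization l
  set δ := a.factorization l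
  obtain ⟨d, hd⟩ := Nat.exists_eq_add_of_le hxy
  have e5 : α + β = δ + 2 * γ := by omega
  by_cases hlP : l ∣ P
  · have hlY : Y.factorization l = 0 := by
      apply Nat.factorization_eq_zero_of_not_dvd
      intro hd
      exact hl.one_lt.ne' (Nat.dvd_one.mp (hcop ▸ Nat.dvd_gcd hd hlP))
    have e6 : γ = β + P.factorization l := by omega
    set p := P.factorization l
    -- x δ + (x + y - z) β = (z - 2 x) p
    obtain ⟨D, hD⟩ := Nat.exists_eq_add_of_lt hzx
    have e7 : (x : ℤ) * δ + (D + 1) * β = (z - 2 * x) * p := by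
      have f1 : (x : ℤ) * α + y * β = z * γ := by exact_mod_cast hval
      have f2 : (α : ℤ) + β = δ + 2 * γ := by exact_mod_cast e5
      have f3 : (γ : ℤ) = β + p := by exact_mod_cast e6
      have f4 : (x : ℤ) + y = z + D + 1 := by exact_mod_cast hD
      have f5 : (α : ℤ) = δ + 2 * γ - β := by linarith
      rw [f5, f3] at f1
      have f6 : (D : ℤ) + 1 = x + y - z := by linarith
      rw [f6]
      linarith
    have h2x : 2 * x ≤ z := by
      by_contra hc
      push Not at hc
      have f1 : ((z : ℤ) - 2 * x) * p ≤ 0 := by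
        apply mul_nonpos_of_nonpos_of_nonneg
        · have : (z : ℤ) < 2 * x := by exact_mod_cast hc
          linarith
        · positivity
      have f2 : 0 < (x : ℤ) * δ := by positivity
      have f3 : 0 ≤ ((D : ℤ) + 1) * β := by positivity
      linarith
    have f1 : ((δ * x : ℕ) : ℤ) ≤ ((p * (z - 2 * x) : ℕ) : ℤ) := by
      push_cast [Nat.cast_sub h2x]
      have f3 : 0 ≤ ((D : ℤ) + 1) * β := by positivity
      nlinarith
    exact_mod_cast f1
  · exfalso
    have hP1 : P.factorization l = 0 := Nat.factorization_eq_zero_of_not_dvd hlP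
    have e6 : γ ≤ β := by omega
    obtain ⟨u, hu⟩ := Nat.exists_eq_add_of_le e6
    have f1 : (x : ℤ) * α + y * β = z * γ := by exact_mod_cast hval
    have f2 : (α : ℤ) + β = δ + 2 * γ := by exact_mod_cast e5
    have f3 : (β : ℤ) = γ + u := by exact_mod_cast hu
    have f4 : (y : ℤ) = x + d := by exact_mod_cast hd
    have f5 : (α : ℤ) = δ + 2 * γ - β := by linarith
    rw [f5, f3, f4] at f1
    have f6 : 0 < (x : ℤ) * δ := by positivity
    have f7 : 0 ≤ (d : ℤ) * u := by positivity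
    have f8 : 0 ≤ ((x : ℤ) + y - z) * γ := by
      apply mul_nonneg
      · have : (z : ℤ) < x + y := by exact_mod_cast hzx
        linarith
      · positivity
    rw [f4] at f8
    nlinarith

/-- The structure of a solution with `x ≤ y`. -/
theorem structureLemma {x y z : ℕ} (hx : 1 < x) (hxy : x ≤ y)
    (heq : x ^ x * y ^ y = z ^ z) :
    ∃ a m G g h Y P e f : ℕ, 0 < a ∧ 0 < m ∧ 0 < G ∧ 0 < g ∧ 0 < h ∧ 0 < Y ∧ 0 < P ∧
      0 < e ∧ 0 < f ∧ Nat.Coprime a m ∧ Nat.Coprime Y P ∧ Nat.Coprime a Y ∧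
      a = x * y / Nat.gcd (x * y) (z ^ 2) ∧ Y = y / Nat.gcd y z ∧ P = z / Nat.gcd y z ∧
      x * y = a * G ∧ z ^ 2 = m * G ∧ g = Y * h ∧ Y = e + f ∧ P = Y + e ∧
      x * m = a * h * P ^ 2 ∧ y = h * Y ^ 2 ∧ z = h * P * Y ∧
      h * Y * e < x ∧ m * Y * e < a * P ^ 2 ∧ h ≤ m * (x + y - z) ∧
      (∀ l : ℕ, l.Prime → Y.factorization l * f ≤ m.factorization l * e) ∧
      a ^ x ∣ P ^ (z - 2 * x) := by
  have hy : 1 < y := by omega
  obtain ⟨hxz, hyz, hzxy⟩ := basic hx hy heq
  have hx0 : 0 < x := by omega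
  have hy0 : 0 < y := by omega
  have hz0 : 0 < z := by omega
  have hxy0 : 0 < x * y := by positivity
  have hz20 : 0 < z ^ 2 := by positivity
  -- a, m, G
  obtain ⟨a, m, G, hG, ham, h1, h2, haD⟩ : ∃ a m G : ℕ, 0 < G ∧ Nat.Coprime a m ∧
      x * y = a * G ∧ z ^ 2 = m * G ∧ a = x * y / Nat.gcd (x * y) (z ^ 2) := by
    have hG : 0 < Nat.gcd (x * y) (z ^ 2) := Nat.gcd_pos_of_pos_left _ hxy0
    refine ⟨x * y / Nat.gcd (x * y) (z ^ 2), z ^ 2 / Nat.gcd (x * y) (z ^ 2),
      Nat.gcd (x * y) (z ^ 2), hG, Nat.coprime_div_gcd_div_gcd hG, ?_, ?_, rfl⟩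
    · exact (Nat.div_mul_cancel (Nat.gcd_dvd_left _ _)).symm
    · exact (Nat.div_mul_cancel (Nat.gcd_dvd_right _ _)).symm
  obtain ⟨g, Y, P, hg, hcop, hyg, hzg, hYD, hPD⟩ : ∃ g Y P : ℕ, 0 < g ∧ Nat.Coprime Y P ∧
      y = g * Y ∧ z = g * P ∧ Y = y / Nat.gcd y z ∧ P = z / Nat.gcd y z := by
    have hG : 0 < Nat.gcd y z := Nat.gcd_pos_of_pos_left _ hy0
    refine ⟨Nat.gcd y z, y / Nat.gcd y z, z / Nat.gcd y z, hG,
      Nat.coprime_div_gcd_div_gcd hG, ?_, ?_, rfl, rfl⟩
    · exact (Nat.mul_div_cancel' (Nat.gcd_dvd_left _ _)).symm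
    · exact (Nat.mul_div_cancel' (Nat.gcd_dvd_right _ _)).symm
  have ha0 : 0 < a := by
    rcases Nat.eq_zero_or_pos a with h0 | h0
    · subst h0; omega
    · exact h0
  have hm0 : 0 < m := by
    rcases Nat.eq_zero_or_pos m with h0 | h0
    · subst h0; omega
    · exact h0
  have hY0 : 0 < Y := by
    rcases Nat.eq_zero_or_pos Y with h0 | h0
    · subst h0; omega
    · exact h0
  have hP0 : 0 < P := by
    rcases Nat.eq_zero_or_pos P with h0 | h0
    · subst h0; omega
    · exact h0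
  have hva : ∀ l : ℕ, l.Prime → a.factorization l * x ≤ P.factorization l * (z - 2 * x) :=
    fun l hl => val_a hx hxy heq hzxy hz0 hcop hyg hzg ham h1 h2 hl
  have hdiv : a ^ x ∣ P ^ (z - 2 * x) := by
    rw [← Nat.factorization_prime_le_iff_dvd (pow_ne_zero _ ha0.ne') (pow_ne_zero _ hP0.ne')]
    intro l hl
    rw [Nat.factorization_pow, Nat.factorization_pow]
    simp only [Finsupp.smul_apply, smul_eq_mul]
    rw [mul_comm x, mul_comm (z - 2 * x)]
    exact hva l hl
  have haY : Nat.Coprime a Y := by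
    rw [Nat.coprime_iff_gcd_eq_one]
    by_contra hc
    obtain ⟨l, hl, hlg⟩ := Nat.exists_prime_and_dvd hc
    have hla : l ∣ a := hlg.trans (Nat.gcd_dvd_left _ _)
    have hlY : l ∣ Y := hlg.trans (Nat.gcd_dvd_right _ _)
    have hlP : P.factorization l = 0 := by
      apply Nat.factorization_eq_zero_of_not_dvd
      intro hd
      exact hl.one_lt.ne' (Nat.dvd_one.mp (hcop ▸ Nat.dvd_gcd hlY hd))
    have h3 := hva l hl
    rw [hlP, zero_mul] at h3
    have h4 : 0 < a.factorization l := hl.factorization_pos_of_dvd ha0.ne' hla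
    have h5 : 0 < a.factorization l * x := by positivity
    omega
  have h3 : a * g * P ^ 2 = x * Y * m := by
    apply Nat.eq_of_mul_eq_mul_left hg
    calc g * (a * g * P ^ 2) = a * z ^ 2 := by rw [hzg]; ring
      _ = m * (x * y) := by rw [h1, h2]; ring
      _ = g * (x * Y * m) := by rw [hyg]; ring
  have hYg : Y ∣ g := by
    have h4 : Y ∣ g * (a * P ^ 2) := by
      have h5 : g * (a * P ^ 2) = Y * (x * m) := by
        calc g * (a * P ^ 2) = a * g * P ^ 2 := by ring
          _ = x * Y * m := h3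
          _ = Y * (x * m) := by ring
      exact ⟨x * m, h5⟩
    exact (Nat.Coprime.mul_right haY.symm (Nat.Coprime.pow_right 2 hcop)).dvd_of_dvd_mul_right h4
  obtain ⟨h, hgh⟩ := hYg
  have hh : 0 < h := by
    rcases Nat.eq_zero_or_pos h with h0 | h0
    · subst h0; omega
    · exact h0
  have hxm : x * m = a * h * P ^ 2 := by
    apply Nat.eq_of_mul_eq_mul_left hY0
    calc Y * (x * m) = x * Y * m := by ring
      _ = a * g * P ^ 2 := h3.symm
      _ = Y * (a * h * P ^ 2) := by rw [hgh]; ring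
  have hyY : y = h * Y ^ 2 := by rw [hyg, hgh]; ring
  have hz : z = h * P * Y := by rw [hzg, hgh]; ring
  have hYP : Y < P := by
    rw [hyg, hzg] at hyz
    exact Nat.lt_of_mul_lt_mul_left hyz
  obtain ⟨e, hPe, he1⟩ : ∃ e : ℕ, P = Y + e ∧ 0 < e := by
    obtain ⟨e, he⟩ := Nat.exists_eq_add_of_lt hYP
    exact ⟨e + 1, by omega, by omega⟩
  have hhY : 0 < h * Y := by positivity
  have heY : e < Y := by
    have h2 : z < 2 * y := by omega
    have h3 : h * Y * P < h * Y * (2 * Y) := by
      calc h * Y * P = z := by rw [hz]; ring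
        _ < 2 * y := h2
        _ = h * Y * (2 * Y) := by rw [hyY]; ring
    have h4 := Nat.lt_of_mul_lt_mul_left h3
    omega
  obtain ⟨f, hYf, hf1⟩ : ∃ f : ℕ, Y = e + f ∧ 0 < f := by
    obtain ⟨f, he⟩ := Nat.exists_eq_add_of_lt heY
    exact ⟨f + 1, by omega, by omega⟩
  have hxe : h * Y * e < x := by
    have : z = y + h * Y * e := by rw [hz, hyY, hPe]; ring
    omega
  have hsize : m * Y * e < a * P ^ 2 := by
    have h3 : h * (m * Y * e) < h * (a * P ^ 2) := by
      calc h * (m * Y * e) = m * (h * Y * e) := by ring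
        _ < m * x := Nat.mul_lt_mul_of_pos_left hxe hm0
        _ = x * m := by ring
        _ = h * (a * P ^ 2) := by rw [hxm]; ring
    exact Nat.lt_of_mul_lt_mul_left h3
  have hD : h ≤ m * (x + y - z) := by
    obtain ⟨s, hs⟩ := Nat.exists_eq_add_of_lt hsize
    obtain ⟨D, hD⟩ := Nat.exists_eq_add_of_le hzxy.le
    have h4 : x + y - z = D := by omega
    rw [h4]
    have h5 : m * (x + y) = m * (z + D) := by rw [hD]
    have h6 : m * D = h * (s + 1) := by
      have f1 : (m : ℤ) * (x + y) = m * (z + D) := by exact_mod_cast h5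
      have f2 : (x : ℤ) * m = a * h * P ^ 2 := by exact_mod_cast hxm
      have f3 : (y : ℤ) = h * Y ^ 2 := by exact_mod_cast hyY
      have f4 : (z : ℤ) = h * P * Y := by exact_mod_cast hz
      have f5 : (a : ℤ) * P ^ 2 = m * Y * e + s + 1 := by exact_mod_cast hs
      have f6 : (P : ℤ) = Y + e := by exact_mod_cast hPe
      have f7 : (m : ℤ) * D = h * (s + 1) := by
        have g1 : (m : ℤ) * D = x * m + m * y - m * z := by linarith
        rw [g1, f2, f3, f4]
        have g2 : (a : ℤ) * h * P ^ 2 = h * (m * Y * e + s + 1) := by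
          rw [← f5]; ring
        rw [g2, f6]
        ring
      exact_mod_cast f7
    rw [h6]
    exact Nat.le_mul_of_pos_right _ (by omega)
  have hvY : ∀ l : ℕ, l.Prime → Y.factorization l * f ≤ m.factorization l * e := by
    intro l hl
    by_cases hlY : l ∣ Y
    swap
    · rw [Nat.factorization_eq_zero_of_not_dvd hlY]
      simp
    have hlP : P.factorization l = 0 := by
      apply Nat.factorization_eq_zero_of_not_dvd
      intro hd
      exact hl.one_lt.ne' (Nat.dvd_one.mp (hcop ▸ Nat.dvd_gcd hlY hd))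
    have hla : a.factorization l = 0 := by
      apply Nat.factorization_eq_zero_of_not_dvd
      intro hd
      exact hl.one_lt.ne' (Nat.dvd_one.mp (haY ▸ Nat.dvd_gcd hd hlY))
    have k1 := val_eq hx hy heq l
    have k2 : x.factorization l + m.factorization l = h.factorization l := by
      have h3 : (x * m).factorization l = (a * h * P ^ 2).factorization l := by rw [hxm]
      rw [Nat.factorization_mul (by omega) hm0.ne',
        Nat.factorization_mul (a := a * h) (by positivity) (by positivity),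
        Nat.factorization_mul ha0.ne' hh.ne',
        Nat.factorization_pow] at h3
      simpa [hlP, hla] using h3
    have k3 : y.factorization l = h.factorization l + 2 * Y.factorization l := by
      rw [hyY, Nat.factorization_mul hh.ne' (by positivity), Nat.factorization_pow]
      simp
    have k4 : z.factorization l = h.factorization l + Y.factorization l := by
      rw [hz, Nat.factorization_mul (by positivity) hY0.ne', Nat.factorization_mul hh.ne' hP0.ne']
      simp [hlP]
    rw [k3, k4] at k1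
    set A := x.factorization l
    set b := m.factorization l
    set c := Y.factorization l
    set H := h.factorization l
    have h5 : h * Y * (c * f) ≤ h * Y * (b * e) := by
      have hzy : z = y + h * Y * e := by
        rw [hz, hyY, hPe]; ring
      have hyd : y = h * Y * e + h * Y * f := by
        rw [hyY]
        calc h * Y ^ 2 = h * Y * Y := by ring
          _ = h * Y * (e + f) := by rw [← hYf]
          _ = h * Y * e + h * Y * f := by ring
      have h6 : h * Y * e * A ≤ x * A := Nat.mul_le_mul_right A hxe.le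
      rw [hzy] at k1
      have h7 : H = A + b := k2.symm
      rw [h7] at k1
      nlinarith
    exact Nat.le_of_mul_le_mul_left h5 (by positivity)
  exact ⟨a, m, G, g, h, Y, P, e, f, ha0, hm0, hG, hg, hh, hY0, hP0, he1, hf1, ham, hcop, haY,
    haD, hYD, hPD, h1, h2, hgh, hYf, hPe, hxm, hyY, hz, hxe, hsize, hD, hvY, hdiv⟩

/-- The bound for `z`. -/
theorem z_bound {x y z a m h Y P : ℕ} (hx : 1 < x) (hxy : x ≤ y)
    (heq : x ^ x * y ^ y = z ^ z) (ha : 0 < a) (hm : 0 < m) (hY : 0 < Y) (hP : 0 < P)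
    (hxm : x * m = a * h * P ^ 2) (hyY : y = h * Y ^ 2) (hz : z = h * P * Y)
    (hD : h ≤ m * (x + y - z)) : z ≤ (m * P * Y) ^ (m * P * Y) := by
  have hy : 1 < y := by omega
  obtain ⟨hxz, hyz, hzxy⟩ := basic hx hy heq
  obtain ⟨D, hDe⟩ := Nat.exists_eq_add_of_le hzxy.le
  have hD' : x + y - z = D := by omega
  rw [hD'] at hD
  have h1 : z ^ D * (x ^ x * y ^ y) = z ^ x * z ^ y := by
    rw [heq, ← pow_add, ← pow_add]
    congr 1
    omega
  have hzx : z ≤ m * Y * x := by
    have : m * Y * x = a * P * z := by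
      calc m * Y * x = (x * m) * Y := by ring
        _ = a * P * z := by rw [hxm, hz]; ring
    rw [this]
    exact Nat.le_mul_of_pos_left _ (by positivity)
  have hzy : z ≤ P * y := by
    have : Y * z = P * y := by rw [hyY, hz]; ring
    rw [← this]
    exact Nat.le_mul_of_pos_left _ hY
  have h2 : z ^ x ≤ (m * Y) ^ x * x ^ x := by
    rw [← mul_pow]
    exact Nat.pow_le_pow_left hzx x
  have h3 : z ^ y ≤ P ^ y * y ^ y := by
    rw [← mul_pow]
    exact Nat.pow_le_pow_left hzy y
  have h4 : z ^ D ≤ (m * Y) ^ x * P ^ y := by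
    have hpos : 0 < x ^ x * y ^ y := by
      have : 0 < x := by omega
      have : 0 < y := by omega
      positivity
    apply Nat.le_of_mul_le_mul_right _ hpos
    rw [h1]
    calc z ^ x * z ^ y ≤ ((m * Y) ^ x * x ^ x) * (P ^ y * y ^ y) := Nat.mul_le_mul h2 h3
      _ = (m * Y) ^ x * P ^ y * (x ^ x * y ^ y) := by ring
  have h5 : z ^ D ≤ (m * P * Y) ^ z := by
    calc z ^ D ≤ (m * Y) ^ x * P ^ y := h4
      _ ≤ (m * Y) ^ z * P ^ z := Nat.mul_le_mul (Nat.pow_le_pow_right (by positivity) hxz.le)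
          (Nat.pow_le_pow_right hP hyz.le)
      _ = (m * P * Y) ^ z := by rw [← mul_pow]; congr 1; ring
  have h6 : z ≤ m * P * Y * D := by
    calc z = h * (P * Y) := by rw [hz]; ring
      _ ≤ m * D * (P * Y) := Nat.mul_le_mul_right _ hD
      _ = m * P * Y * D := by ring
  have h7 : z ^ z ≤ ((m * P * Y) ^ (m * P * Y)) ^ z := by
    calc z ^ z ≤ z ^ (m * P * Y * D) := Nat.pow_le_pow_right (by omega) h6
      _ = (z ^ D) ^ (m * P * Y) := by rw [← pow_mul]; congr 1; ring
      _ ≤ ((m * P * Y) ^ z) ^ (m * P * Y) := Nat.pow_le_pow_left h5 _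
      _ = ((m * P * Y) ^ (m * P * Y)) ^ z := by rw [← pow_mul, ← pow_mul]; congr 1; ring
  exact (Nat.pow_le_pow_iff_left (by omega : z ≠ 0)).mp h7

/-- The bound for `Y`. -/
theorem Y_bound {a m Y P e f : ℕ} (ha : 0 < a) (hm : 0 < m) (he : 0 < e) (hf : 0 < f)
    (hYf : Y = e + f) (hPe : P = Y + e) (hsize : m * Y * e < a * P ^ 2)
    (hvY : ∀ l : ℕ, l.Prime → Y.factorization l * f ≤ m.factorization l * e)
    (h4 : 4 * a + 1 ≤ m) : Y ≤ (5 * a) ^ (3 * a) := by
  have hY0 : 0 < Y := by omega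
  have hdvd : Y ^ f ∣ m ^ e := by
    rw [← Nat.factorization_prime_le_iff_dvd (pow_ne_zero _ hY0.ne') (pow_ne_zero _ hm.ne')]
    intro l hl
    rw [Nat.factorization_pow, Nat.factorization_pow]
    simp only [Finsupp.smul_apply, smul_eq_mul]
    rw [mul_comm f, mul_comm e]
    exact hvY l hl
  have hle : Y ^ f ≤ m ^ e := Nat.le_of_dvd (pow_pos hm e) hdvd
  have h1 : Y * e < a * f ^ 2 := by
    have e1 : P ^ 2 = 4 * (Y * e) + f ^ 2 := by rw [hPe, hYf]; ring
    rw [e1] at hsize
    have e2 : (4 * a + 1) * (Y * e) ≤ m * (Y * e) := Nat.mul_le_mul_right _ h4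
    nlinarith
  rcases Nat.lt_or_ge e f with hef | hef
  · -- Y > 2 e
    have h2 : Y ≤ m := by
      have : Y ^ e ≤ m ^ e := le_trans (Nat.pow_le_pow_right hY0 hef.le) hle
      exact (Nat.pow_le_pow_iff_left he.ne').mp this
    have h3 : 4 * e * m ≤ 9 * a * Y := by
      have e1 : 4 * P ^ 2 ≤ 9 * Y ^ 2 := by
        rw [hPe]
        have : 2 * e ≤ Y := by omega
        nlinarith
      have e2 : Y * (4 * e * m) ≤ Y * (9 * a * Y) := by
        calc Y * (4 * e * m) = 4 * (m * Y * e) := by ring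
          _ ≤ 4 * (a * P ^ 2) := Nat.mul_le_mul_left _ hsize.le
          _ = a * (4 * P ^ 2) := by ring
          _ ≤ a * (9 * Y ^ 2) := Nat.mul_le_mul_left _ e1
          _ = Y * (9 * a * Y) := by ring
      exact Nat.le_of_mul_le_mul_left e2 hY0
    have h5 : e ≤ 3 * a := by
      have e1 : Y * (4 * e) ≤ Y * (9 * a) := by
        calc Y * (4 * e) ≤ m * (4 * e) := Nat.mul_le_mul_right _ h2
          _ = 4 * e * m := by ring
          _ ≤ 9 * a * Y := h3
          _ = Y * (9 * a) := by ring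
      have := Nat.le_of_mul_le_mul_left e1 hY0
      omega
    have h6 : Y ≤ (3 * a) ^ e := by
      have e1 : Y ^ (e + 1) ≤ m ^ e := le_trans (Nat.pow_le_pow_right hY0 (by omega)) hle
      have e2 : (4 * e) ^ e * Y ^ (e + 1) ≤ (9 * a * Y) ^ e := by
        calc (4 * e) ^ e * Y ^ (e + 1) ≤ (4 * e) ^ e * m ^ e := Nat.mul_le_mul_left _ e1
          _ = (4 * e * m) ^ e := (mul_pow (4 * e) m e).symm
          _ ≤ (9 * a * Y) ^ e := Nat.pow_le_pow_left h3 _
      have e3 : (4 : ℕ) ^ e ≤ (4 * e) ^ e := Nat.pow_le_pow_left (by omega) _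
      have e4 : Y ^ e * 4 ^ e * Y ≤ Y ^ e * 4 ^ e * (3 * a) ^ e := by
        calc Y ^ e * 4 ^ e * Y = 4 ^ e * Y ^ (e + 1) := by ring
          _ ≤ (4 * e) ^ e * Y ^ (e + 1) := Nat.mul_le_mul_right _ e3
          _ ≤ (9 * a * Y) ^ e := e2
          _ ≤ (12 * a * Y) ^ e := Nat.pow_le_pow_left (by nlinarith) _
          _ = Y ^ e * 4 ^ e * (3 * a) ^ e := by
              rw [← mul_pow, ← mul_pow]; congr 1; ring
      exact Nat.le_of_mul_le_mul_left e4 (by positivity)
    calc Y ≤ (3 * a) ^ e := h6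
      _ ≤ (5 * a) ^ e := Nat.pow_le_pow_left (by omega) _
      _ ≤ (5 * a) ^ (3 * a) := Nat.pow_le_pow_right (by omega) h5
  · -- Y ≤ 2 e
    have h2 : m ≤ 5 * a := by
      have e1 : 2 * P ^ 2 ≤ 9 * (Y * e) := by
        rw [hPe, hYf]
        nlinarith
      have e2 : (Y * e) * (2 * m) ≤ (Y * e) * (9 * a) := by
        calc (Y * e) * (2 * m) = 2 * (m * Y * e) := by ring
          _ ≤ 2 * (a * P ^ 2) := Nat.mul_le_mul_left _ hsize.le
          _ = a * (2 * P ^ 2) := by ring
          _ ≤ a * (9 * (Y * e)) := Nat.mul_le_mul_left _ e1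
          _ = (Y * e) * (9 * a) := by ring
      have := Nat.le_of_mul_le_mul_left e2 (by positivity)
      omega
    have h3 : e ≤ f * (2 * a) := by
      by_contra hc
      push Not at hc
      have e1 : (f * (2 * a)) ^ 2 ≤ Y * e * 2 := by
        have : f * (2 * a) ≤ Y := by omega
        nlinarith
      have e2 : 2 * (a * f ^ 2) ≤ (f * (2 * a)) ^ 2 := by
        have : 2 * (a * f ^ 2) * 1 ≤ 2 * (a * f ^ 2) * (2 * a) :=
          Nat.mul_le_mul_left _ (by omega)
        nlinarith
      omega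
    have h5 : Y ≤ m ^ (2 * a) := by
      have e1 : Y ^ f ≤ (m ^ (2 * a)) ^ f := by
        calc Y ^ f ≤ m ^ e := hle
          _ ≤ m ^ (f * (2 * a)) := Nat.pow_le_pow_right hm h3
          _ = (m ^ (2 * a)) ^ f := by rw [← pow_mul]; congr 1; ring
      exact (Nat.pow_le_pow_iff_left hf.ne').mp e1
    calc Y ≤ m ^ (2 * a) := h5
      _ ≤ (5 * a) ^ (2 * a) := Nat.pow_le_pow_left h2 _
      _ ≤ (5 * a) ^ (3 * a) := Nat.pow_le_pow_right (by omega) (by omega)

/-- All the bounds. -/
theorem main_bounds {x y z : ℕ} (hx : 1 < x) (hxy : x ≤ y) (heq : x ^ x * y ^ y = z ^ z) :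
    (x * y / Nat.gcd (x * y) (z ^ 2)) ^ x ∣ (z / Nat.gcd y z) ^ (z - 2 * x) ∧
    x * y / Nat.gcd (x * y) (z ^ 2) ≤ (2 * (y / Nat.gcd y z)) ^ (y / Nat.gcd y z) ∧
    z ≤ (8 * (x * y / Nat.gcd (x * y) (z ^ 2)) * (y / Nat.gcd y z) ^ 3) ^
      (8 * (x * y / Nat.gcd (x * y) (z ^ 2)) * (y / Nat.gcd y z) ^ 3) ∧
    (4 * (x * y) < z ^ 2 → 2 ≤ x * y / Nat.gcd (x * y) (z ^ 2) ∧
      y / Nat.gcd y z ≤ (5 * (x * y / Nat.gcd (x * y) (z ^ 2))) ^
        (3 * (x * y / Nat.gcd (x * y) (z ^ 2)))) := by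
  obtain ⟨a, m, G, g, h, Y, P, e, f, ha0, hm0, hG, hg, hh, hY0, hP0, he1, hf1, ham, hcop, haY,
    haD, hYD, hPD, h1, h2, hgh, hYf, hPe, hxm, hyY, hz, hxe, hsize, hD, hvY, hdiv⟩ :=
    structureLemma hx hxy heq
  rw [← haD, ← hYD, ← hPD]
  have hP2 : P ≤ 2 * Y := by omega
  refine ⟨hdiv, ?_, ?_, ?_⟩
  · have k1 : a ^ x ≤ P ^ (z - 2 * x) := Nat.le_of_dvd (pow_pos hP0 _) hdiv
    have k2 : z - 2 * x ≤ h * Y * f := by
      have : z = 2 * (h * Y * e) + h * Y * f := by
        rw [hz, hPe]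
        calc h * (Y + e) * Y = h * Y * (e + f) + h * Y * e := by
              rw [← hYf]; ring
          _ = 2 * (h * Y * e) + h * Y * f := by ring
      omega
    have k3 : (a ^ e) ^ (h * Y) ≤ (P ^ f) ^ (h * Y) := by
      calc (a ^ e) ^ (h * Y) = a ^ (h * Y * e) := by rw [← pow_mul]; congr 1; ring
        _ ≤ a ^ x := Nat.pow_le_pow_right ha0 hxe.le
        _ ≤ P ^ (z - 2 * x) := k1
        _ ≤ P ^ (h * Y * f) := Nat.pow_le_pow_right hP0 k2
        _ = (P ^ f) ^ (h * Y) := by rw [← pow_mul]; congr 1; ring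
    have k4 : a ^ e ≤ P ^ f := (Nat.pow_le_pow_iff_left (by positivity)).mp k3
    calc a ≤ a ^ e := Nat.le_self_pow he1.ne' a
      _ ≤ P ^ f := k4
      _ ≤ (2 * Y) ^ f := Nat.pow_le_pow_left hP2 _
      _ ≤ (2 * Y) ^ Y := Nat.pow_le_pow_right (by omega) (by omega)
  · have k1 := z_bound hx hxy heq ha0 hm0 hY0 hP0 hxm hyY hz hD
    have k2 : m ≤ 4 * a * Y := by
      have e1 : Y * m ≤ Y * (4 * a * Y) := by
        calc Y * m ≤ m * Y * e := by
              rw [mul_comm Y m]; exact Nat.le_mul_of_pos_right _ he1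
          _ ≤ a * P ^ 2 := hsize.le
          _ ≤ a * (2 * Y) ^ 2 := Nat.mul_le_mul_left _ (Nat.pow_le_pow_left hP2 2)
          _ = Y * (4 * a * Y) := by ring
      exact Nat.le_of_mul_le_mul_left e1 hY0
    have k3 : m * P * Y ≤ 8 * a * Y ^ 3 := by
      calc m * P * Y ≤ (4 * a * Y) * (2 * Y) * Y :=
            Nat.mul_le_mul_right _ (Nat.mul_le_mul k2 hP2)
        _ = 8 * a * Y ^ 3 := by ring
    calc z ≤ (m * P * Y) ^ (m * P * Y) := k1
      _ ≤ (8 * a * Y ^ 3) ^ (m * P * Y) := Nat.pow_le_pow_left k3 _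
      _ ≤ (8 * a * Y ^ 3) ^ (8 * a * Y ^ 3) := Nat.pow_le_pow_right (by positivity) k3
  · intro h4
    have k1 : 4 * a + 1 ≤ m := by
      have : G * (4 * a) < G * m := by
        calc G * (4 * a) = 4 * (x * y) := by rw [h1]; ring
          _ < z ^ 2 := h4
          _ = G * m := by rw [h2]; ring
      have := Nat.lt_of_mul_lt_mul_left this
      omega
    refine ⟨?_, Y_bound ha0 hm0 he1 hf1 hYf hPe hsize hvY k1⟩
    by_contra hc
    have ha1 : a = 1 := by omega
    subst ha1
    have k2 : z ^ 2 = x * y * m := by rw [h1, h2]; ring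
    obtain ⟨w, κ, P', Y', -, -, -, -, -, s1, s2, s3⟩ := shape hx (by omega) hxy heq k2
    have k3 : 4 * (x * y) = z ^ 2 := by rw [s1, s2, s3]; ring
    omega

end Pool.Agent.W_MP_4d3d39_h25
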